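import Pool.Agent.Helper18.SU.Goals
import Pool.Agent.Helper30.Brouwer.Kakutani

/-! Packet SU EQ: the equilibrium of the two reservation measures. -/

set_option autoImplicit false

namespace Pool.Agent.Helper19.SU

open Pool.Agent.Helper18.SU

theorem nash_scalar {P Q F G a gP gQ g0 : ℝ} (hP : 0 ≤ P) (hQ : 0 ≤ Q) (hPQ : P + Q ≤ 1)
    (ha : a = P * F + Q * G) (hgP : gP = max (F - a) 0) (hgQ : gQ = max (G - a) 0)
    (hg0 : g0 = max (0 - a) 0)
    (h1 : (P + gP) / (1 + gP + gQ + g0) = P) (h2 : (Q + gQ) / (1 + gP + gQ + g0) = Q) :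
    (0 < P → 0 ≤ F) ∧ (0 < Q → 0 ≤ G) ∧ (P + Q < 1 → F ≤ 0 ∧ G ≤ 0) := by
  have nP : 0 ≤ gP := by rw [hgP]; exact le_max_right _ _
  have nQ : 0 ≤ gQ := by rw [hgQ]; exact le_max_right _ _
  have n0 : 0 ≤ g0 := by rw [hg0]; exact le_max_right _ _
  have hD : 0 < 1 + gP + gQ + g0 := by linarith
  rw [div_eq_iff hD.ne'] at h1 h2
  set S := gP + gQ + g0 with hS
  have e1 : gP = P * S := by rw [hS]; linarith
  have e2 : gQ = Q * S := by rw [hS]; linarith
  have e0 : g0 = (1 - P - Q) * S := by
    have : g0 = S - gP - gQ := by rw [hS]; ring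
    rw [this, e1, e2]
    ring
  have hS0 : S = 0 := by
    by_contra hne
    have hpos : 0 < S := lt_of_le_of_ne (by rw [hS]; linarith) (Ne.symm hne)
    have t1 : P * (F - a) = P * (P * S) := by
      rcases eq_or_lt_of_le hP with h | h
      · rw [← h]; ring
      · have h3 : 0 < gP := by rw [e1]; positivity
        have h4 : gP = F - a := by
          rw [hgP] at h3 ⊢
          rcases max_choice (F - a) 0 with h5 | h5
          · exact h5
          · rw [h5] at h3; exact absurd h3 (lt_irrefl _)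
        rw [← h4, e1]
    have t2 : Q * (G - a) = Q * (Q * S) := by
      rcases eq_or_lt_of_le hQ with h | h
      · rw [← h]; ring
      · have h3 : 0 < gQ := by rw [e2]; positivity
        have h4 : gQ = G - a := by
          rw [hgQ] at h3 ⊢
          rcases max_choice (G - a) 0 with h5 | h5
          · exact h5
          · rw [h5] at h3; exact absurd h3 (lt_irrefl _)
        rw [← h4, e2]
    have t0 : (1 - P - Q) * (0 - a) = (1 - P - Q) * ((1 - P - Q) * S) := by
      rcases eq_or_lt_of_le (show 0 ≤ 1 - P - Q by linarith) with h | h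
      · rw [← h]; ring
      · have h3 : 0 < g0 := by rw [e0]; positivity
        have h4 : g0 = 0 - a := by
          rw [hg0] at h3 ⊢
          rcases max_choice (0 - a) 0 with h5 | h5
          · exact h5
          · rw [h5] at h3; exact absurd h3 (lt_irrefl _)
        rw [← h4, e0]
    have hsum : P * (F - a) + Q * (G - a) + (1 - P - Q) * (0 - a) = 0 := by
      rw [ha]; ring
    rw [t1, t2, t0] at hsum
    have h6 : (P ^ 2 + Q ^ 2 + (1 - P - Q) ^ 2) * S = 0 := by linarith
    have h7 : 0 < P ^ 2 + Q ^ 2 + (1 - P - Q) ^ 2 := by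
      nlinarith [sq_nonneg (P - Q), sq_nonneg (P - 1/3), sq_nonneg (Q - 1/3)]
    have := mul_pos h7 hpos
    linarith
  have z1 : gP = 0 := by rw [e1, hS0, mul_zero]
  have z2 : gQ = 0 := by rw [e2, hS0, mul_zero]
  have z0 : g0 = 0 := by rw [e0, hS0, mul_zero]
  have l1 : F ≤ a := by
    have := le_max_left (F - a) 0
    rw [← hgP, z1] at this
    linarith
  have l2 : G ≤ a := by
    have := le_max_left (G - a) 0
    rw [← hgQ, z2] at this
    linarith
  have l0 : 0 ≤ a := by
    have := le_max_left (0 - a) 0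
    rw [← hg0, z0] at this
    linarith
  have hsum : P * (F - a) + Q * (G - a) + (1 - P - Q) * (0 - a) = 0 := by
    rw [ha]; ring
  have s1 : P * (F - a) ≤ 0 := mul_nonpos_of_nonneg_of_nonpos hP (by linarith)
  have s2 : Q * (G - a) ≤ 0 := mul_nonpos_of_nonneg_of_nonpos hQ (by linarith)
  have s0 : (1 - P - Q) * (0 - a) ≤ 0 :=
    mul_nonpos_of_nonneg_of_nonpos (by linarith) (by linarith)
  refine ⟨fun h => ?_, fun h => ?_, fun h => ?_⟩
  · have h3 : P * (F - a) = 0 := by linarith
    have h4 : F - a = 0 := by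
      rcases mul_eq_zero.1 h3 with h5 | h5
      · exact absurd h5 h.ne'
      · exact h5
    linarith
  · have h3 : Q * (G - a) = 0 := by linarith
    have h4 : G - a = 0 := by
      rcases mul_eq_zero.1 h3 with h5 | h5
      · exact absurd h5 h.ne'
      · exact h5
    linarith
  · have h3 : (1 - P - Q) * (0 - a) = 0 := by linarith
    have h4 : 0 - a = 0 := by
      rcases mul_eq_zero.1 h3 with h5 | h5
      · exact absurd h5 (by linarith)
      · exact h5
    constructor <;> linarith

/-- The triangle. -/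
def Tri : Set (ℝ × ℝ) := {w | 0 ≤ w.1 ∧ 0 ≤ w.2 ∧ w.1 + w.2 ≤ 1}

theorem Tri_compact : IsCompact Tri := by
  refine IsCompact.of_isClosed_subset (isCompact_Icc (a := ((0 : ℝ), (0 : ℝ))) (b := (1, 1))) ?_ ?_
  · have h1 : IsClosed {w : ℝ × ℝ | 0 ≤ w.1} := isClosed_le continuous_const continuous_fst
    have h2 : IsClosed {w : ℝ × ℝ | 0 ≤ w.2} := isClosed_le continuous_const continuous_snd
    have h3 : IsClosed {w : ℝ × ℝ | w.1 + w.2 ≤ 1} :=
      isClosed_le (continuous_fst.add continuous_snd) continuous_const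
    exact h1.inter (h2.inter h3)
  · rintro ⟨a, b⟩ ⟨h1, h2, h3⟩
    simp only at h1 h2 h3
    exact ⟨⟨h1, h2⟩, ⟨by simp only; linarith, by simp only; linarith⟩⟩

theorem Tri_convex : Convex ℝ Tri := by
  rintro ⟨a, b⟩ ⟨h1, h2, h3⟩ ⟨c, d⟩ ⟨k1, k2, k3⟩ s t hs ht hst
  simp only at h1 h2 h3 k1 k2 k3
  refine ⟨?_, ?_, ?_⟩
  · simp only [Prod.smul_mk, Prod.mk_add_mk, smul_eq_mul]; positivity
  · simp only [Prod.smul_mk, Prod.mk_add_mk, smul_eq_mul]; positivity
  · simp only [Prod.smul_mk, Prod.mk_add_mk, smul_eq_mul]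
    nlinarith [mul_le_mul_of_nonneg_left h3 hs, mul_le_mul_of_nonneg_left k3 ht]

theorem EQ : EQ_stmt := by
  intro V _ _ A _ p q _ _
  classical
  -- payoffs
  let F : (V → ℝ × ℝ) → V → ℝ := fun z x => p - (wt A true (fun y => (z y).1) x + (z x).1 / 2)
  let G : (V → ℝ × ℝ) → V → ℝ := fun z x => q - (wt A false (fun y => (z y).2) x + (z x).2 / 2)
  let a : (V → ℝ × ℝ) → V → ℝ := fun z x => (z x).1 * F z x + (z x).2 * G z x
  let gP : (V → ℝ × ℝ) → V → ℝ := fun z x => max (F z x - a z x) 0
  let gQ : (V → ℝ × ℝ) → V → ℝ := fun z x => max (G z x - a z x) 0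
  let g0 : (V → ℝ × ℝ) → V → ℝ := fun z x => max (0 - a z x) 0
  let f : (V → ℝ × ℝ) → (V → ℝ × ℝ) := fun z x =>
    (((z x).1 + gP z x) / (1 + gP z x + gQ z x + g0 z x),
     ((z x).2 + gQ z x) / (1 + gP z x + gQ z x + g0 z x))
  have hwt : ∀ (d : Bool) (x : V) (g : (V → ℝ × ℝ) → V → ℝ), (∀ y, Continuous fun z => g z y) →
      Continuous fun z => wt A d (g z) x := by
    intro d x g hg
    unfold wt
    refine continuous_finsetSum _ fun y _ => ?_
    split_ifs
    · exact hg y
    · exact continuous_const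
  have c1 : ∀ y : V, Continuous fun z : V → ℝ × ℝ => (z y).1 := fun y =>
    continuous_fst.comp (continuous_apply y)
  have c2 : ∀ y : V, Continuous fun z : V → ℝ × ℝ => (z y).2 := fun y =>
    continuous_snd.comp (continuous_apply y)
  have cF : ∀ x, Continuous fun z => F z x := fun x =>
    continuous_const.sub ((hwt true x _ c1).add ((c1 x).div_const 2))
  have cG : ∀ x, Continuous fun z => G z x := fun x =>
    continuous_const.sub ((hwt false x _ c2).add ((c2 x).div_const 2))
  have ca : ∀ x, Continuous fun z => a z x := fun x =>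
    ((c1 x).mul (cF x)).add ((c2 x).mul (cG x))
  have cgP : ∀ x, Continuous fun z => gP z x := fun x => ((cF x).sub (ca x)).max continuous_const
  have cgQ : ∀ x, Continuous fun z => gQ z x := fun x => ((cG x).sub (ca x)).max continuous_const
  have cg0 : ∀ x, Continuous fun z => g0 z x := fun x =>
    (continuous_const.sub (ca x)).max continuous_const
  have nP : ∀ z x, 0 ≤ gP z x := fun z x => le_max_right _ _
  have nQ : ∀ z x, 0 ≤ gQ z x := fun z x => le_max_right _ _
  have n0 : ∀ z x, 0 ≤ g0 z x := fun z x => le_max_right _ _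
  have hD : ∀ z x, 0 < 1 + gP z x + gQ z x + g0 z x := fun z x => by
    have := nP z x; have := nQ z x; have := n0 z x
    linarith
  have cD : ∀ x, Continuous fun z => 1 + gP z x + gQ z x + g0 z x := fun x =>
    ((continuous_const.add (cgP x)).add (cgQ x)).add (cg0 x)
  have cf : Continuous f := by
    refine continuous_pi fun x => ?_
    refine Continuous.prodMk ?_ ?_
    · exact ((c1 x).add (cgP x)).div (cD x) fun z => (hD z x).ne'
    · exact ((c2 x).add (cgQ x)).div (cD x) fun z => (hD z x).ne'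
  let K : Set (V → ℝ × ℝ) := Set.univ.pi fun _ => Tri
  have hK : IsCompact K := isCompact_univ_pi fun _ => Tri_compact
  have hKc : Convex ℝ K := convex_pi fun _ _ => Tri_convex
  have hKn : K.Nonempty := ⟨fun _ => (0, 0), fun x _ => ⟨le_refl _, le_refl _, by norm_num⟩⟩
  have hmaps : Set.MapsTo f K K := by
    intro z hz x _
    obtain ⟨h1, h2, h3⟩ := hz x (Set.mem_univ x)
    have := nP z x; have := nQ z x; have := n0 z x
    refine ⟨?_, ?_, ?_⟩
    · exact div_nonneg (by linarith) (hD z x).le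
    · exact div_nonneg (by linarith) (hD z x).le
    · show ((z x).1 + gP z x) / (1 + gP z x + gQ z x + g0 z x) +
        ((z x).2 + gQ z x) / (1 + gP z x + gQ z x + g0 z x) ≤ 1
      rw [← add_div, div_le_one (hD z x)]
      linarith
  obtain ⟨z, hz, hfz⟩ := Pool.Agent.Helper30.Brouwer.brouwer_fd K hK hKc hKn f cf.continuousOn hmaps
  have key : ∀ x, (0 < (z x).1 → 0 ≤ F z x) ∧ (0 < (z x).2 → 0 ≤ G z x) ∧
      ((z x).1 + (z x).2 < 1 → F z x ≤ 0 ∧ G z x ≤ 0) := by
    intro x
    obtain ⟨h1, h2, h3⟩ := hz x (Set.mem_univ x)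
    have e := congrFun hfz x
    exact nash_scalar h1 h2 h3 rfl rfl rfl rfl (congrArg Prod.fst e) (congrArg Prod.snd e)
  refine ⟨fun x => (z x).1, fun x => (z x).2, fun x => (hz x (Set.mem_univ x)).1,
    fun x => (hz x (Set.mem_univ x)).2.1, fun x => (hz x (Set.mem_univ x)).2.2, ?_, ?_, ?_⟩
  · intro x hx
    have h := (key x).1 hx
    simp only [F] at h
    linarith
  · intro x hx
    have h := (key x).2.1 hx
    simp only [G] at h
    linarith
  · intro x hx
    have h := (key x).2.2 hx
    simp only [F, G] at h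
    exact ⟨by linarith [h.1], by linarith [h.2]⟩

end Pool.Agent.Helper19.SU
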