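import Pool.Agent.Helper18.SU.Goals2

/-!
Packet TG: the exchange lemma for two groups.
-/

set_option autoImplicit false

namespace Pool.Agent.Helper19.SU

open Pool.Agent.Helper18.SU

variable {ι V : Type} [DecidableEq ι] [DecidableEq V]

omit [DecidableEq ι] in
theorem plc_card {b : ι → ℕ} {good : ι → Finset V → Prop} {O : ι → Finset V} {S : Finset ι}
    {U : ι → Finset V} (h : Plc b good O S U) {M : Finset ι} (hM : M ⊆ S) :
    (M.biUnion U).card = ∑ i ∈ M, b i := by
  rw [Finset.card_biUnion]
  · exact Finset.sum_congr rfl fun i hi => (h.1 i (hM hi)).2.1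
  · intro i hi j hj hij
    exact h.2 i (hM hi) j (hM hj) hij

theorem plc_insert {b : ι → ℕ} {good : ι → Finset V → Prop} {O : ι → Finset V} {S : Finset ι}
    {U : ι → Finset V} (h : Plc b good O S U) {j : ι} (hj : j ∉ S) {X : Finset V}
    (hX : X ⊆ O j \ S.biUnion U) (hc : X.card = b j) (hg : good j X) :
    ∃ U', Plc b good O (insert j S) U' := by
  have hd : ∀ c ∈ S, Disjoint (U c) X := by
    intro c hc
    rw [Finset.disjoint_left]
    intro x hx hx'
    exact (Finset.mem_sdiff.1 (hX hx')).2 (Finset.mem_biUnion.2 ⟨c, hc, hx⟩)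
  refine ⟨Function.update U j X, ?_, ?_⟩
  · intro c hc'
    rcases Finset.mem_insert.1 hc' with rfl | hcS
    · rw [Function.update_self]
      exact ⟨hX.trans Finset.sdiff_subset, hc, hg⟩
    · have : c ≠ j := fun e => hj (e ▸ hcS)
      rw [Function.update_of_ne this]
      exact h.1 c hcS
  · intro c hc' c' hc'' hne
    rcases Finset.mem_insert.1 hc' with rfl | hcS
    · rcases Finset.mem_insert.1 hc'' with rfl | hcS'
      · exact absurd rfl hne
      · have h2 : c' ≠ c := fun e => hj (e ▸ hcS')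
        rw [Function.update_self, Function.update_of_ne h2]
        exact (hd c' hcS').symm
    · have h1 : c ≠ j := fun e => hj (e ▸ hcS)
      rcases Finset.mem_insert.1 hc'' with rfl | hcS'
      · rw [Function.update_self, Function.update_of_ne h1]
        exact hd c hcS
      · have h2 : c' ≠ j := fun e => hj (e ▸ hcS')
        rw [Function.update_of_ne h1, Function.update_of_ne h2]
        exact h.2 c hcS c' hcS' hne

theorem pick (f : ι → ℕ) (β L : ℕ) (I : Finset ι) : (∀ i ∈ I, f i ≤ β) → L ≤ ∑ i ∈ I, f i →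
    ∃ M ⊆ I, L ≤ ∑ i ∈ M, f i ∧ ∑ i ∈ M, f i ≤ L + β := by
  induction I using Finset.induction_on with
  | empty =>
    intro _ h
    exact ⟨∅, le_rfl, h, by simp⟩
  | insert a I ha ih =>
    intro h1 h2
    by_cases h3 : L ≤ ∑ i ∈ I, f i
    · obtain ⟨M, hM, h4, h5⟩ := ih (fun i hi => h1 i (Finset.mem_insert_of_mem hi)) h3
      exact ⟨M, hM.trans (Finset.subset_insert _ _), h4, h5⟩
    · refine ⟨insert a I, le_rfl, h2, ?_⟩
      rw [Finset.sum_insert ha]
      have := h1 a (Finset.mem_insert_self _ _)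
      omega

theorem step (h1 : GRE_stmt) {b : ι → ℕ} {good : ι → Finset V → Prop} (hcan : Can b good)
    {O : ι → Finset V} {I J : Finset ι} {β κ τ : ℕ} (hIJ : Disjoint I J)
    (hb : ∀ c ∈ I ∪ J, b c ≤ β)
    (hO : ∀ c ∈ I ∪ J, ∑ i ∈ I ∪ J, b i ≤ (O c).card + κ)
    (hτ : ∀ i ∈ I, ∀ j ∈ J, τ ≤ (O i \ O j).card)
    (hI : κ + 5 * β + 2 * C0 ≤ ∑ i ∈ I, b i)
    (hτ2 : 2 * κ + 11 * β + 4 * C0 ≤ τ) {J' : Finset ι} (hJ' : J' ⊆ J) {j : ι} (hj : j ∈ J)
    (hjJ' : j ∉ J') (hU : ∃ U, Plc b good O (I ∪ J') U) :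
    ∃ U, Plc b good O (insert j (I ∪ J')) U := by
  obtain ⟨U, hU⟩ := hU
  set S : Finset ι := I ∪ J' with hS
  have hjI : j ∉ I := fun h => (Finset.disjoint_left.1 hIJ h) hj
  have hjS : j ∉ S := by
    rw [hS, Finset.mem_union, not_or]
    exact ⟨hjI, hjJ'⟩
  have hSIJ : S ⊆ I ∪ J := Finset.union_subset_union_right hJ'
  have hjIJ : j ∈ I ∪ J := Finset.mem_union_right _ hj
  have hIS : I ⊆ S := Finset.subset_union_left
  set F : Finset V := S.biUnion U with hF
  have hFc : F.card = ∑ i ∈ S, b i := plc_card hU le_rfl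
  have hFT : F.card + b j ≤ ∑ i ∈ I ∪ J, b i := by
    rw [hFc, add_comm, ← Finset.sum_insert hjS]
    refine Finset.sum_le_sum_of_subset ?_
    exact Finset.insert_subset hjIJ hSIJ
  have hOj := hO j hjIJ
  have hbj := hb j hjIJ
  by_cases hA : 3 * b j + C0 ≤ (O j \ F).card
  · obtain ⟨X, hX, hXc, hXg⟩ := hcan j (O j \ F) hA
    exact plc_insert hU hjS hX hXc hXg
  · rw [not_le] at hA
    have e1 : (O j \ F).card + (O j ∩ F).card = (O j).card := Finset.card_sdiff_add_card_inter _ _
    have e2 : (F \ O j).card + (F ∩ O j).card = F.card := Finset.card_sdiff_add_card_inter _ _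
    rw [Finset.inter_comm] at e2
    have e3 : (F \ O j).card ≤ κ + 2 * β + C0 := by omega
    have hUd : ∀ M ⊆ S, ∑ i ∈ M, (U i \ O j).card ≤ (F \ O j).card := by
      intro M hM
      rw [← Finset.card_biUnion]
      · refine Finset.card_le_card ?_
        intro x hx
        obtain ⟨i, hi, hxi⟩ := Finset.mem_biUnion.1 hx
        rw [Finset.mem_sdiff] at hxi ⊢
        exact ⟨Finset.mem_biUnion.2 ⟨i, hM hi, hxi.1⟩, hxi.2⟩
      · intro i hi i' hi' hne
        exact Disjoint.mono Finset.sdiff_subset Finset.sdiff_subset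
          (hU.2 i (hM hi) i' (hM hi') hne)
    have hsp : ∀ M ⊆ S, ∑ i ∈ M, b i = ∑ i ∈ M, (U i ∩ O j).card + ∑ i ∈ M, (U i \ O j).card := by
      intro M hM
      rw [← Finset.sum_add_distrib]
      refine Finset.sum_congr rfl fun i hi => ?_
      rw [← (hU.1 i (hM hi)).2.1, add_comm]
      exact (Finset.card_sdiff_add_card_inter _ _).symm
    have h3 : 3 * β + C0 ≤ ∑ i ∈ I, (U i ∩ O j).card := by
      have h4 := hsp I hIS
      have h5 := hUd I hIS
      omega
    obtain ⟨M, hMI, hM1, hM2⟩ := pick (fun i => (U i ∩ O j).card) β (3 * β + C0) I (by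
      intro i hi
      refine (Finset.card_le_card Finset.inter_subset_left).trans ?_
      rw [(hU.1 i (hIS hi)).2.1]
      exact hb i (hSIJ (hIS hi))) h3
    have hMS : M ⊆ S := hMI.trans hIS
    have hMb : ∑ i ∈ M, b i ≤ κ + 6 * β + 2 * C0 := by
      have h4 := hsp M hMS
      have h5 := hUd M hMS
      omega
    set F' : Finset V := (S \ M).biUnion U with hF'
    have hF'F : F' ⊆ F := Finset.biUnion_subset_biUnion_of_subset_left _ Finset.sdiff_subset
    obtain ⟨N, hN⟩ := h1 ι V b good hcan (fun i => (O i \ O j) \ F') M β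
      (fun c hc => hb c (hSIJ (hMS hc))) (by
        intro c hc
        have h4 := hτ c (hMI hc) j hj
        have h5 : (O c \ O j).card ≤ ((O c \ O j) \ F').card + (F \ O j).card := by
          have h6 : (O c \ O j).card ≤ (((O c \ O j) \ F') ∪ (F \ O j)).card := by
            refine Finset.card_le_card fun x hx => ?_
            by_cases hxF : x ∈ F'
            · refine Finset.mem_union_right _ ?_
              rw [Finset.mem_sdiff] at hx ⊢
              exact ⟨hF'F hxF, hx.2⟩
            · refine Finset.mem_union_left _ ?_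
              rw [Finset.mem_sdiff]
              exact ⟨hx, hxF⟩
          exact h6.trans (Finset.card_union_le _ _)
        omega)
    set U₂ : ι → Finset V := fun i => if i ∈ M then N i else U i with hU₂
    have hU₂M : ∀ i ∈ M, U₂ i = N i := fun i hi => by simp only [hU₂]; rw [if_pos hi]
    have hU₂n : ∀ i, i ∉ M → U₂ i = U i := fun i hi => by simp only [hU₂]; rw [if_neg hi]
    have hNd : ∀ c ∈ M, ∀ c' ∈ S, c' ∉ M → Disjoint (N c) (U c') := by
      intro c hc c' hc' hcM'
      rw [Finset.disjoint_left]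
      intro x hx hx'
      have h4 := (hN.1 c hc).1 hx
      rw [Finset.mem_sdiff] at h4
      exact h4.2 (Finset.mem_biUnion.2 ⟨c', Finset.mem_sdiff.2 ⟨hc', hcM'⟩, hx'⟩)
    have hP : Plc b good O S U₂ := by
      refine ⟨?_, ?_⟩
      · intro c hc
        by_cases hcM : c ∈ M
        · rw [hU₂M c hcM]
          obtain ⟨h4, h5, h6⟩ := hN.1 c hcM
          exact ⟨(h4.trans Finset.sdiff_subset).trans Finset.sdiff_subset, h5, h6⟩
        · rw [hU₂n c hcM]
          exact hU.1 c hc
      · intro c hc c' hc' hne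
        by_cases hcM : c ∈ M
        · by_cases hcM' : c' ∈ M
          · rw [hU₂M c hcM, hU₂M c' hcM']
            exact hN.2 c hcM c' hcM' hne
          · rw [hU₂M c hcM, hU₂n c' hcM']
            exact hNd c hcM c' hc' hcM'
        · by_cases hcM' : c' ∈ M
          · rw [hU₂n c hcM, hU₂M c' hcM']
            exact (hNd c' hcM' c hc hcM).symm
          · rw [hU₂n c hcM, hU₂n c' hcM']
            exact hU.2 c hc c' hc' hne
    have hfree : 3 * b j + C0 ≤ (O j \ S.biUnion U₂).card := by
      have h4 : ∑ i ∈ M, (U i ∩ O j).card ≤ (O j \ S.biUnion U₂).card := by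
        rw [← Finset.card_biUnion]
        · refine Finset.card_le_card fun x hx => ?_
          obtain ⟨i, hi, hxi⟩ := Finset.mem_biUnion.1 hx
          rw [Finset.mem_inter] at hxi
          rw [Finset.mem_sdiff]
          refine ⟨hxi.2, fun h5 => ?_⟩
          obtain ⟨c, hc, hxc⟩ := Finset.mem_biUnion.1 h5
          by_cases hcM : c ∈ M
          · rw [hU₂M c hcM] at hxc
            have h6 := (hN.1 c hcM).1 hxc
            rw [Finset.mem_sdiff, Finset.mem_sdiff] at h6
            exact h6.1.2 hxi.2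
          · rw [hU₂n c hcM] at hxc
            have h6 : i ≠ c := fun e => hcM (e ▸ hi)
            exact Finset.disjoint_left.1 (hU.2 i (hMS hi) c hc h6) hxi.1 hxc
        · intro i hi i' hi' hne
          exact Disjoint.mono Finset.inter_subset_left Finset.inter_subset_left
            (hU.2 i (hMS hi) i' (hMS hi') hne)
      omega
    obtain ⟨X, hX, hXc, hXg⟩ := hcan j _ hfree
    exact plc_insert hP hjS hX hXc hXg

theorem TG (h1 : GRE_stmt) : TG_stmt := by
  intro ι V _ _ b good hcan O I J β κ τ hIJ hb hO hτ hI hJ hτ2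
  have hT : ∑ i ∈ I ∪ J, b i = ∑ i ∈ I, b i + ∑ i ∈ J, b i := Finset.sum_union hIJ
  have hbase : ∃ U, Plc b good O I U := by
    refine h1 ι V b good hcan O I β (fun c hc => hb c (Finset.mem_union_left _ hc)) fun c hc => ?_
    have h2 := hO c (Finset.mem_union_left _ hc)
    omega
  have key : ∀ J' ⊆ J, ∃ U, Plc b good O (I ∪ J') U := by
    intro J'
    induction J' using Finset.induction_on with
    | empty =>
      intro _
      rw [Finset.union_empty]
      exact hbase
    | insert j J' hjJ' ih =>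
      intro hsub
      have hj : j ∈ J := hsub (Finset.mem_insert_self _ _)
      have hJ'J : J' ⊆ J := (Finset.subset_insert _ _).trans hsub
      rw [Finset.union_insert]
      exact step h1 hcan hIJ hb hO hτ hI hτ2 hJ'J hj hjJ' (ih hJ'J)
  exact key J le_rfl

end Pool.Agent.Helper19.SU
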